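import Mathlib
import Pool.Agent.H72.Main

set_option autoImplicit false

namespace Pool.Agent.H72.INS

open Set Topology Filter Pool.Agent.H72

attribute [local irreducible] phi prox

lemma barrierW {c : ℂ} (hc : c ∈ CC) {q : ℂ} (h1 : |q.re| ≤ 1 / 2) (h2 : |q.im| ≤ 1 / 2)
    {ε : ℝ} (hε : 0 < ε) {r0 : ℝ} (hr0 : 0 < r0) :
    ∃ N : Set (ℂ × ℝ), IsOpen N ∧ (c, phi c) ∈ N ∧
      (∀ p ∈ closure N, dist p.1 c ≤ r0 ∧ |p.2 - phi c| ≤ r0) ∧
      ∀ p : ℂ × ℝ, (prox p.1 p.2, p.2) ∈ closure N → (prox p.1 p.2, p.2) ∉ N →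
        phi (prox p.1 p.2) ≤ p.2 → dist p (c + Pstar c q, phi c) < ε := by
  obtain ⟨r, hr, hloc⟩ := phi_local_min hc
  obtain ⟨s, hs, hslim, htau⟩ := exists_seq_tau h1 h2 (show 0 < min (r / 2) (r0 / 2) by positivity)
  have hspos : ∀ k, 0 < s k := fun k => (hs k).1
  have hsr : ∀ k, 2 * s k ≤ r := fun k => by
    have := (hs k).2.le.trans (min_le_left _ _)
    linarith
  have hs2 : ∀ k, s k ≤ r0 / 2 := fun k => (hs k).2.le.trans (min_le_right _ _)
  set N : ℕ → Set (ℂ × ℝ) := fun k => {p | dist p.1 c < 2 * s k ∧ |p.2 - phi c| < s k} with hN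
  have hNopen : ∀ k, IsOpen (N k) := by
    intro k
    apply IsOpen.and
    · exact isOpen_lt (continuous_fst.dist continuous_const) continuous_const
    · exact isOpen_lt (continuous_snd.sub continuous_const).abs continuous_const
  have hNcl : ∀ k, closure (N k) ⊆ {p | dist p.1 c ≤ 2 * s k ∧ |p.2 - phi c| ≤ s k} := by
    intro k
    apply closure_minimal
    · rintro p ⟨hp1, hp2⟩
      exact ⟨hp1.le, hp2.le⟩
    · apply IsClosed.and
      · exact isClosed_le (continuous_fst.dist continuous_const) continuous_const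
      · exact isClosed_le (continuous_snd.sub continuous_const).abs continuous_const
  have hNmem : ∀ k, (c, phi c) ∈ N k := by
    intro k
    refine ⟨?_, ?_⟩
    · simp only [dist_self]; have := hspos k; positivity
    · simp only [sub_self, abs_zero]; exact hspos k
  have hN5 : ∀ k, ∀ p ∈ closure (N k), dist p.1 c ≤ r0 ∧ |p.2 - phi c| ≤ r0 := by
    intro k p hp
    obtain ⟨h3, h4⟩ := hNcl k hp
    have h5 := hs2 k
    have h6 := hspos k
    constructor <;> linarith
  by_contra hcon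
  push Not at hcon
  have hseq : ∀ k, ∃ p : ℂ × ℝ, (prox p.1 p.2, p.2) ∈ closure (N k) ∧ (prox p.1 p.2, p.2) ∉ N k ∧
      phi (prox p.1 p.2) ≤ p.2 ∧ ε ≤ dist p (c + Pstar c q, phi c) :=
    fun k => hcon (N k) (hNopen k) (hNmem k) (hN5 k)
  choose p hp1 hp2 hp3 hp4 using hseq
  set x : ℕ → ℂ := fun k => prox (p k).1 (p k).2 with hx
  have hxprox : ∀ k, IsProx (p k).1 (p k).2 (x k) := fun k => prox_spec _ _
  have hxc : ∀ k, ‖x k - c‖ ≤ s k := by
    intro k
    obtain ⟨h3, h4⟩ := hNcl k (hp1 k)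
    simp only at h3 h4
    have h5 := hloc (x k) (h3.trans (hsr k))
    have h6 := (abs_le.mp h4).2
    have h7 := hp3 k
    rw [← dist_eq_norm]
    have h8 : phi (x k) ≤ (p k).2 := h7
    linarith
  have ht : ∀ k, (p k).2 = phi c + s k := by
    intro k
    obtain ⟨h3, h4⟩ := hNcl k (hp1 k)
    simp only at h3 h4
    have h5 := hloc (x k) (h3.trans (hsr k))
    have h7 : phi (x k) ≤ (p k).2 := hp3 k
    have h8 : ¬ (|(p k).2 - phi c| < s k) := by
      intro h9
      apply hp2 k
      refine ⟨?_, h9⟩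
      have := hxc k
      rw [← dist_eq_norm] at this
      have h10 := hspos k
      change dist (x k) c < 2 * s k
      linarith
    have h9 : |(p k).2 - phi c| = s k := le_antisymm h4 (not_lt.mp h8)
    have h10 : 0 ≤ (p k).2 - phi c := by
      have := dist_nonneg (x := x k) (y := c)
      linarith
    rw [abs_of_nonneg h10] at h9
    linarith
  set w : ℕ → ℂ := fun k => (p k).1 - x k - PP (x k) (p k).2 with hw
  have hwnorm : ∀ k, ‖w k‖ ≤ 2 := by
    intro k
    have h3 := (hxprox k).norm_le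
    rw [norm_sub_rev] at h3
    have h4 := PP_norm_le (x k) (p k).2
    have h5 := norm_sub_le ((p k).1 - x k) (PP (x k) (p k).2)
    simp only [hw]
    linarith
  set x' : ℕ → ℂ := fun k => x k + (s k / 2) • w k with hx'
  have hx'c : ∀ k, ‖x' k - c‖ ≤ 2 * s k := by
    intro k
    have h3 : x' k - c = (x k - c) + (s k / 2) • w k := by simp only [hx']; ring
    rw [h3]
    refine (norm_add_le _ _).trans ?_
    rw [norm_smul, Real.norm_eq_abs, abs_of_pos (by have := hspos k; positivity)]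
    have h4 := hwnorm k
    have h5 := hxc k
    have h6 := hspos k
    nlinarith
  have h2s : Tendsto (fun k => 2 * s k) atTop (𝓝 0) := by
    have := hslim.const_mul 2
    simpa using this
  have hxlim : Tendsto x atTop (𝓝 c) := by
    rw [tendsto_iff_norm_sub_tendsto_zero]
    exact squeeze_zero (fun _ => norm_nonneg _) hxc hslim
  have hx'lim : Tendsto x' atTop (𝓝 c) := by
    rw [tendsto_iff_norm_sub_tendsto_zero]
    exact squeeze_zero (fun _ => norm_nonneg _) hx'c h2s
  have hPx : Tendsto (fun k => PP (x k) (phi c + s k)) atTop (𝓝 (Pstar c q)) := by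
    apply PP_tendsto hslim hxlim
    apply htau
    intro k
    have h5 := hxc k
    have h6 := hspos k
    linarith
  have hPx' : Tendsto (fun k => PP (x' k) (phi c + s k)) atTop (𝓝 (Pstar c q)) := by
    apply PP_tendsto hslim hx'lim
    exact htau _ hx'c
  have hwlim : Tendsto w atTop (𝓝 0) := by
    have h3 := (hPx'.sub hPx).norm
    rw [sub_self, norm_zero] at h3
    apply squeeze_zero_norm _ h3
    intro k
    have h4 := (hxprox k).norm_sub_le (show 0 < s k / 2 by have := hspos k; positivity)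
    rw [ht k] at h4
    simp only [hw, hx', ht k]
    exact h4
  have hylim : Tendsto (fun k => (p k).1) atTop (𝓝 (c + Pstar c q)) := by
    have h3 := (hxlim.add hPx).add hwlim
    rw [add_zero] at h3
    refine h3.congr (fun k => ?_)
    simp only [hw, ht k]
    ring
  have htlim : Tendsto (fun k => (p k).2) atTop (𝓝 (phi c)) := by
    have h3 := hslim.const_add (phi c)
    rw [add_zero] at h3
    exact h3.congr (fun k => (ht k).symm)
  have hplim : Tendsto p atTop (𝓝 (c + Pstar c q, phi c)) := hylim.prodMk_nhds htlim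
  have hev := (Metric.tendsto_nhds.mp hplim) ε hε
  obtain ⟨k, hk⟩ := hev.exists
  exact absurd hk (not_lt.mpr (hp4 k))

theorem main_W (K : Set (ℂ × ℝ)) (hKc : IsCompact K) (hKconn : IsPreconnected K)
    (hKA : ∀ p ∈ K, p ∉ AA) {a b : ℂ × ℝ} (ha : a ∈ K) (ha1 : phi (prox a.1 a.2) < a.2)
    (hb : b ∈ K) (hb1 : b.2 < phi (prox b.1 b.2)) :
    ∃ c ∈ CC, ∀ q : ℂ, |q.re| ≤ 1 / 2 → |q.im| ≤ 1 / 2 → (c + Pstar c q, phi c) ∈ K := by
  classical
  by_contra hcon
  push Not at hcon
  have hN : ∀ c ∈ CC, ∃ N : Set (ℂ × ℝ), IsOpen N ∧ (c, phi c) ∈ N ∧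
      (prox a.1 a.2, a.2) ∉ closure N ∧
      ∀ p ∈ K, (prox p.1 p.2, p.2) ∈ closure N → phi (prox p.1 p.2) ≤ p.2 →
        (prox p.1 p.2, p.2) ∈ N := by
    intro c hc
    obtain ⟨q, hq1, hq2, hq⟩ := hcon c hc
    have hopen : IsOpen Kᶜ := hKc.isClosed.isOpen_compl
    obtain ⟨ε, hε, hball⟩ := Metric.isOpen_iff.mp hopen _ hq
    have hr0 : ∃ r0 : ℝ, 0 < r0 ∧ ¬ (dist (prox a.1 a.2) c ≤ r0 ∧ |a.2 - phi c| ≤ r0) := by
      by_cases h : dist (prox a.1 a.2) c = 0
      · have h' : 0 < |a.2 - phi c| := by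
          rw [abs_pos, sub_ne_zero]
          intro h2
          rw [dist_eq_zero] at h
          rw [h] at ha1
          exact absurd h2 ha1.ne'
        exact ⟨|a.2 - phi c| / 2, by positivity, fun h3 => by linarith [h3.2]⟩
      · have h' : 0 < dist (prox a.1 a.2) c := lt_of_le_of_ne dist_nonneg (Ne.symm h)
        exact ⟨dist (prox a.1 a.2) c / 2, by positivity, fun h3 => by linarith [h3.1]⟩
    obtain ⟨r0, hr0, hr1⟩ := hr0
    obtain ⟨N, hNo, hNc, hN5, hNb⟩ := barrierW hc hq1 hq2 hε hr0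
    refine ⟨N, hNo, hNc, fun h => hr1 (hN5 _ h), ?_⟩
    intro p hp hpc hphi
    by_contra hpn
    have := hNb p hpc hpn hphi
    exact (hball (Metric.mem_ball.mpr this)) hp
  choose! N hNo hNc hN5 hNb using hN
  have hfc : Continuous (fun p : ℂ × ℝ => (prox p.1 p.2, p.2)) :=
    prox_continuous.prodMk continuous_snd
  have hphic : Continuous (fun p : ℂ × ℝ => phi (prox p.1 p.2)) :=
    phi_continuous.comp prox_continuous
  have hcomp : IsCompact (K ∩ {p : ℂ × ℝ | phi (prox p.1 p.2) = p.2}) :=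
    hKc.inter_right (isClosed_eq hphic continuous_snd)
  obtain ⟨t, ht⟩ := hcomp.elim_finite_subcover
    (fun c : CC => (fun p : ℂ × ℝ => (prox p.1 p.2, p.2)) ⁻¹' (N c))
    (fun c => (hNo c c.2).preimage hfc)
    (by
      rintro p ⟨hpK, hp⟩
      have hpC : prox p.1 p.2 ∈ CC := by
        by_contra h
        exact hKA p hpK ⟨hp, h⟩
      rw [mem_iUnion]
      refine ⟨⟨prox p.1 p.2, hpC⟩, ?_⟩
      have h3 := hNc (prox p.1 p.2) hpC
      have h4 : phi (prox p.1 p.2) = p.2 := hp
      rw [h4] at h3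
      exact h3)
  -- the two separating open sets
  set M : Set (ℂ × ℝ) := ⋃ c ∈ t, N c with hM
  have hMopen : IsOpen M := isOpen_biUnion (fun c _ => hNo c c.2)
  have hMcl : closure M = ⋃ c ∈ t, closure (N c) := t.closure_biUnion _
  set G : Set (ℂ × ℝ) := {p | phi (prox p.1 p.2) < p.2} ∩
    (fun p : ℂ × ℝ => (prox p.1 p.2, p.2)) ⁻¹' (closure M)ᶜ with hG
  set G' : Set (ℂ × ℝ) := {p | phi (prox p.1 p.2) ≤ p.2} ∩
    (fun p : ℂ × ℝ => (prox p.1 p.2, p.2)) ⁻¹' Mᶜ with hG'
  have hGo : IsOpen G :=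
    (isOpen_lt hphic continuous_snd).inter (isClosed_closure.isOpen_compl.preimage hfc)
  have hG'c : IsClosed G' :=
    (isClosed_le hphic continuous_snd).inter (hMopen.isClosed_compl.preimage hfc)
  have hsub : G ⊆ G' := by
    rintro p ⟨hp1, hp2⟩
    have hp1' : phi (prox p.1 p.2) < p.2 := hp1
    exact ⟨hp1'.le, fun h => hp2 (subset_closure h)⟩
  have hcov : K ⊆ G ∪ G'ᶜ := by
    intro p hp
    by_cases hpG : p ∈ G'
    · left
      obtain ⟨hp1, hp2⟩ := hpG
      have hp1' : phi (prox p.1 p.2) ≤ p.2 := hp1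
      refine ⟨?_, ?_⟩
      · apply lt_of_le_of_ne hp1'
        intro heq
        have h3 := ht ⟨hp, heq⟩
        simp only [mem_iUnion] at h3
        obtain ⟨c, hct, hpc⟩ := h3
        apply hp2
        simp only [hM, mem_iUnion]
        exact ⟨c, hct, hpc⟩
      · intro hcl
        rw [hMcl] at hcl
        simp only [mem_iUnion] at hcl
        obtain ⟨c, hct, hpc⟩ := hcl
        apply hp2
        simp only [hM, mem_iUnion]
        exact ⟨c, hct, hNb c c.2 p hp hpc hp1'⟩
    · right; exact hpG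
  have hmem : a ∈ G := by
    refine ⟨ha1, ?_⟩
    intro hcl
    rw [hMcl] at hcl
    simp only [mem_iUnion] at hcl
    obtain ⟨c, _, hpc⟩ := hcl
    exact hN5 c c.2 hpc
  have hKG : K ⊆ G := hKconn.subset_left_of_subset_union hGo hG'c.isOpen_compl
    (by
      rw [Set.disjoint_left]
      intro p hp hp'
      exact hp' (hsub hp)) hcov ⟨_, ha, hmem⟩
  have h6 : phi (prox b.1 b.2) < b.2 := (hKG hb).1
  exact absurd h6 (not_lt.mpr hb1.le)

end Pool.Agent.H72.INS
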