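import Mathlib
import Pool.Agent.H72.INS.Sq

set_option autoImplicit false

namespace Pool.Agent.H72.INS

open Set Topology Filter Pool.Agent.H72

attribute [local irreducible] phi prox

/-- from the ambient form of the covering dimension to the intrinsic one -/
theorem cov_of_dimLe {Y : Type*} [TopologicalSpace Y] {A : Set Y} {k : ℕ} (h : DimLe A k)
    (m : ℕ) (U : Fin m → Set A) (hU : ∀ i, IsOpen (U i)) (hc : ∀ x, ∃ i, x ∈ U i) :
    ∃ (r : ℕ) (V : Fin r → Set A), (∀ j, IsOpen (V j)) ∧ (∀ x, ∃ j, x ∈ V j) ∧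
      (∀ j, ∃ i, V j ⊆ U i) ∧ ∀ x, Nat.card {j // x ∈ V j} ≤ k + 1 := by
  classical
  choose U' hU' hUU using fun i => isOpen_induced_iff.mp (hU i)
  obtain ⟨𝒱, h1, h2, h3⟩ := h (Finset.univ.image U')
    (by
      intro W hW
      obtain ⟨i, -, rfl⟩ := Finset.mem_image.mp hW
      exact hU' i)
    (by
      intro x hx
      obtain ⟨i, hi⟩ := hc ⟨x, hx⟩
      rw [← hUU i] at hi
      exact ⟨U' i, by simp, hi⟩)
  refine ⟨𝒱.card, fun j => Subtype.val ⁻¹' (𝒱.equivFin.symm j : Set Y), ?_, ?_, ?_, ?_⟩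
  · intro j
    exact (h1 _ (𝒱.equivFin.symm j).2).1.preimage continuous_subtype_val
  · rintro ⟨x, hx⟩
    obtain ⟨W, hW, hxW⟩ := h2 hx
    refine ⟨𝒱.equivFin ⟨W, hW⟩, ?_⟩
    rw [mem_preimage, Equiv.symm_apply_apply]
    exact hxW
  · intro j
    obtain ⟨W, hW, hW2⟩ := (h1 _ (𝒱.equivFin.symm j).2).2
    obtain ⟨i, -, rfl⟩ := Finset.mem_image.mp hW
    refine ⟨i, ?_⟩
    rw [← hUU i]
    intro x hx
    exact hW2 ⟨hx, x.2⟩
  · rintro ⟨x, hx⟩
    refine le_trans ?_ (h3 x hx)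
    have hfin : {V | V ∈ 𝒱 ∧ x ∈ V}.Finite := 𝒱.finite_toSet.subset (fun V hV => hV.1)
    have : Finite {V | V ∈ 𝒱 ∧ x ∈ V} := hfin
    have e1 : Nat.card {j // (⟨x, hx⟩ : A) ∈ (Subtype.val ⁻¹' (𝒱.equivFin.symm j : Set Y) : Set A)} ≤
        Nat.card {V | V ∈ 𝒱 ∧ x ∈ V} := by
      apply Nat.card_le_card_of_injective
        (fun j => (⟨(𝒱.equivFin.symm j.1 : Set Y), (𝒱.equivFin.symm j.1).2, j.2⟩ :
          {V | V ∈ 𝒱 ∧ x ∈ V}))
      intro j j' hjj
      have h4 : (𝒱.equivFin.symm j.1 : Set Y) = (𝒱.equivFin.symm j'.1 : Set Y) :=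
        congrArg (fun z : {V | V ∈ 𝒱 ∧ x ∈ V} => z.1) hjj
      exact Subtype.ext (𝒱.equivFin.symm.injective (Subtype.ext h4))
    exact e1

/-- from the intrinsic form of the covering dimension to the ambient one -/
theorem dimLe_of_cov {Y : Type*} [TopologicalSpace Y] {A : Set Y} {k : ℕ}
    (h : ∀ (m : ℕ) (U : Fin m → Set A), (∀ i, IsOpen (U i)) → (∀ x, ∃ i, x ∈ U i) →
      ∃ (r : ℕ) (V : Fin r → Set A), (∀ j, IsOpen (V j)) ∧ (∀ x, ∃ j, x ∈ V j) ∧
        (∀ j, ∃ i, V j ⊆ U i) ∧ ∀ x, Nat.card {j // x ∈ V j} ≤ k + 1) : DimLe A k := by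
  classical
  intro 𝒰 hU hcov
  obtain ⟨r, V, h1, h2, h3, h4⟩ := h 𝒰.card
    (fun j => Subtype.val ⁻¹' (𝒰.equivFin.symm j : Set Y))
    (fun j => (hU _ (𝒰.equivFin.symm j).2).preimage continuous_subtype_val)
    (by
      rintro ⟨x, hx⟩
      obtain ⟨W, hW, hxW⟩ := hcov hx
      refine ⟨𝒰.equivFin ⟨W, hW⟩, ?_⟩
      rw [mem_preimage, Equiv.symm_apply_apply]
      exact hxW)
  choose V' hV' hVV using fun i => isOpen_induced_iff.mp (h1 i)
  refine ⟨Finset.univ.image V', ?_, ?_, ?_⟩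
  · intro W hW
    obtain ⟨j, -, rfl⟩ := Finset.mem_image.mp hW
    refine ⟨hV' j, ?_⟩
    obtain ⟨i, hi⟩ := h3 j
    refine ⟨_, (𝒰.equivFin.symm i).2, ?_⟩
    rintro x ⟨hx, hxA⟩
    have : (⟨x, hxA⟩ : A) ∈ V j := by
      rw [← hVV j]
      exact hx
    exact hi this
  · intro x hx
    obtain ⟨j, hj⟩ := h2 ⟨x, hx⟩
    rw [← hVV j] at hj
    exact ⟨V' j, by simp, hj⟩
  · intro x hx
    refine le_trans ?_ (h4 ⟨x, hx⟩)
    have e1 : {W | W ∈ Finset.univ.image V' ∧ x ∈ W} ⊆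
        V' '' {j | (⟨x, hx⟩ : A) ∈ V j} := by
      rintro W ⟨hW, hxW⟩
      obtain ⟨j, -, rfl⟩ := Finset.mem_image.mp hW
      refine ⟨j, ?_, rfl⟩
      change (⟨x, hx⟩ : A) ∈ V j
      rw [← hVV j]
      exact hxW
    have e2 := Set.ncard_le_ncard e1 (Set.toFinite _)
    have e3 := Set.ncard_image_le (f := V') (Set.toFinite {j | (⟨x, hx⟩ : A) ∈ V j})
    exact e2.trans e3

/-- in a space of dimension `≤ 0` with the Hausdorff property connected sets are points -/
theorem subsingleton_of_cov {Y : Type*} [TopologicalSpace Y] [T1Space Y]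
    (h : ∀ (m : ℕ) (U : Fin m → Set Y), (∀ i, IsOpen (U i)) → (∀ x, ∃ i, x ∈ U i) →
      ∃ (r : ℕ) (V : Fin r → Set Y), (∀ j, IsOpen (V j)) ∧ (∀ x, ∃ j, x ∈ V j) ∧
        (∀ j, ∃ i, V j ⊆ U i) ∧ ∀ x, Nat.card {j // x ∈ V j} ≤ 0 + 1)
    {S : Set Y} (hS : IsPreconnected S) : S.Subsingleton := by
  intro x hx y hy
  by_contra hxy
  obtain ⟨r, V, h1, h2, h3, h4⟩ := h 2 ![{x}ᶜ, {y}ᶜ]
    (by
      intro i
      fin_cases i
      · exact isOpen_compl_singleton
      · exact isOpen_compl_singleton)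
    (by
      intro z
      by_cases hz : z = x
      · refine ⟨1, ?_⟩
        simp only [Matrix.cons_val_one, Matrix.cons_val_fin_one, mem_compl_iff, mem_singleton_iff]
        rw [hz]
        exact hxy
      · exact ⟨0, hz⟩)
  obtain ⟨j0, hj0⟩ := h2 x
  have huniq : ∀ z, ∀ j j', z ∈ V j → z ∈ V j' → j = j' := by
    intro z j j' hj hj'
    have h5 := h4 z
    rw [zero_add, Finite.card_le_one_iff_subsingleton] at h5
    exact congrArg Subtype.val (Subsingleton.elim (⟨j, hj⟩ : {j // z ∈ V j}) ⟨j', hj'⟩)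
  have hyV : y ∉ V j0 := by
    obtain ⟨i, hi⟩ := h3 j0
    fin_cases i
    · exact absurd rfl (hi hj0)
    · intro hy0
      exact absurd rfl (hi hy0)
  have hopen : IsOpen (⋃ j ∈ {j | j ≠ j0}, V j) := isOpen_biUnion (fun j _ => h1 j)
  have := hS (V j0) (⋃ j ∈ {j | j ≠ j0}, V j) (h1 j0) hopen
    (by
      intro z _
      obtain ⟨j, hj⟩ := h2 z
      by_cases hjj : j = j0
      · left; rw [← hjj]; exact hj
      · right
        simp only [mem_iUnion, mem_ofPred_eq]
        exact ⟨j, hjj, hj⟩)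
    ⟨x, hx, hj0⟩
    (by
      obtain ⟨j, hj⟩ := h2 y
      refine ⟨y, hy, ?_⟩
      simp only [mem_iUnion, mem_ofPred_eq]
      exact ⟨j, fun hjj => hyV (hjj ▸ hj), hj⟩)
  obtain ⟨z, -, hz1, hz2⟩ := this
  simp only [mem_iUnion, mem_ofPred_eq] at hz2
  obtain ⟨j, hj1, hj2⟩ := hz2
  exact hj1 (huniq z j j0 hj2 hz1)

/-- coordinates -/
noncomputable def e3 : EuclideanSpace ℝ (Fin 3) ≃ₜ ℂ × ℝ where
  toFun x := (((x 0 : ℝ) : ℂ) + ((x 1 : ℝ) : ℂ) * Complex.I, x 2)
  invFun p := !₂[p.1.re, p.1.im, p.2]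
  left_inv := by
    intro x
    ext i
    fin_cases i <;> simp
  right_inv := by
    intro p
    apply Prod.ext
    · simp
    · simp
  continuous_toFun := by fun_prop
  continuous_invFun := by
    apply (PiLp.continuous_toLp 2 _).comp
    apply continuous_pi
    intro i
    fin_cases i
    · exact Complex.continuous_re.comp continuous_fst
    · exact Complex.continuous_im.comp continuous_fst
    · exact continuous_snd

/-- the set contains the image of a line without dyadic points -/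
theorem exists_conn : ∃ S : Set (e3 ⁻¹' AA : Set (EuclideanSpace ℝ (Fin 3))),
    IsPreconnected S ∧ S.Nontrivial := by
  have hsq : √2 ∉ Dy := by
    intro h
    obtain ⟨n, k, hk⟩ := h
    apply irrational_sqrt_two.ne_rational k (2 ^ n)
    rw [hk]
    push_cast
    rfl
  have hL : ∀ y : ℝ, (⟨√2, y⟩ : ℂ) ∉ CC := fun y h => hsq h.1
  have hLc : Continuous (fun y : ℝ => (⟨√2, y⟩ : ℂ)) := by
    have : (fun y : ℝ => (⟨√2, y⟩ : ℂ)) = fun y : ℝ => ((√2 : ℝ) : ℂ) + ((y : ℝ) : ℂ) * Complex.I := by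
      funext y
      exact Complex.mk_eq_add_mul_I _ _
    rw [this]
    fun_prop
  set θ : ℝ → ℂ × ℝ := fun y => (((⟨√2, y⟩ : ℂ) + PP ⟨√2, y⟩ (phi ⟨√2, y⟩)), phi ⟨√2, y⟩) with hθ
  have hθp : ∀ y, prox (θ y).1 (θ y).2 = ⟨√2, y⟩ := fun y => prox_eq (isProx_add_PP _ _)
  have hθA : ∀ y, θ y ∈ AA := by
    intro y
    refine ⟨?_, ?_⟩
    · rw [hθp]
    · rw [hθp]
      exact hL y
  have hθc : Continuous θ := by
    rw [continuous_iff_continuousAt]
    intro y
    have h1 : ContinuousAt (fun x : ℂ => (x + PP x (phi x), phi x)) (⟨√2, y⟩ : ℂ) := by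
      apply ContinuousAt.prodMk
      · apply ContinuousAt.add continuousAt_id
        have h1 := PP_continuousAt (show (⟨√2, y⟩ : ℂ) ∉ CC from hL y) (phi ⟨√2, y⟩)
        exact ContinuousAt.comp (f := fun x : ℂ => (x, phi x)) h1
          (continuousAt_id.prodMk phi_continuous.continuousAt)
      · exact phi_continuous.continuousAt
    exact ContinuousAt.comp (f := fun y : ℝ => (⟨√2, y⟩ : ℂ)) h1 hLc.continuousAt
  refine ⟨range (fun y : ℝ => (⟨e3.symm (θ y), by
      change e3 (e3.symm (θ y)) ∈ AA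
      rw [e3.apply_symm_apply]
      exact hθA y⟩ : (e3 ⁻¹' AA : Set (EuclideanSpace ℝ (Fin 3))))), ?_, ?_⟩
  · apply isPreconnected_range
    exact (e3.symm.continuous.comp hθc).subtype_mk _
  · refine ⟨_, mem_range_self 0, _, mem_range_self 1, ?_⟩
    intro h
    have h1 := e3.symm.injective (congrArg Subtype.val h)
    have h2 := hθp 0
    rw [h1, hθp 1] at h2
    have h3 := congrArg Complex.im h2
    simp at h3

/-- the final form -/
theorem final : ∃ A U V : Set (EuclideanSpace ℝ (Fin 3)),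
    DimLe A 1 ∧ (∃ S : Set A, IsPreconnected S ∧ S.Nontrivial) ∧ IsOpen U ∧ IsOpen V ∧ U.Nonempty ∧
      V.Nonempty ∧ Disjoint A U ∧ Disjoint A V ∧
      ∀ K : Set (EuclideanSpace ℝ (Fin 3)), IsCompact K → IsConnected K → Disjoint K A →
        (K ∩ U).Nonempty → (K ∩ V).Nonempty →
        (∃ a b c s : ℝ, 0 < s ∧ ∀ x : EuclideanSpace ℝ (Fin 3),
          x 0 ∈ Icc a (a + s) → x 1 ∈ Icc b (b + s) → x 2 = c → x ∈ K) ∧ ¬ DimLe K 1 := by
  have hphic : Continuous (fun p : ℂ × ℝ => phi (prox p.1 p.2)) :=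
    phi_continuous.comp prox_continuous
  refine ⟨e3 ⁻¹' AA, e3 ⁻¹' {p | phi (prox p.1 p.2) < p.2}, e3 ⁻¹' {p | p.2 < phi (prox p.1 p.2)},
    ?_, ?_, ?_, ?_, ?_, ?_, ?_, ?_, ?_⟩
  · exact DimLe.transfer dimLe_AA e3 e3.continuous (fun x hx => hx)
      e3.symm e3.symm.continuous.continuousOn
      (fun y hy => by
        change e3 (e3.symm y) ∈ AA
        rw [e3.apply_symm_apply]
        exact hy)
      (fun x _ => e3.symm_apply_apply x)
  · exact exists_conn
  · exact (isOpen_lt hphic continuous_snd).preimage e3.continuous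
  · exact (isOpen_lt continuous_snd hphic).preimage e3.continuous
  · refine ⟨e3.symm ((0 : ℂ), (5 : ℝ)), ?_⟩
    rw [mem_preimage, e3.apply_symm_apply]
    change phi (prox 0 5) < 5
    have := phi_le (prox 0 5)
    linarith
  · refine ⟨e3.symm ((0 : ℂ), (-1 : ℝ)), ?_⟩
    rw [mem_preimage, e3.apply_symm_apply]
    change -1 < phi (prox 0 (-1))
    have := phi_nonneg (prox 0 (-1))
    linarith
  · rw [Set.disjoint_left]
    intro x hx hx'
    have h1 : phi (prox (e3 x).1 (e3 x).2) = (e3 x).2 := hx.1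
    have h2 : phi (prox (e3 x).1 (e3 x).2) < (e3 x).2 := hx'
    exact h2.ne h1
  · rw [Set.disjoint_left]
    intro x hx hx'
    have h1 : phi (prox (e3 x).1 (e3 x).2) = (e3 x).2 := hx.1
    have h2 : (e3 x).2 < phi (prox (e3 x).1 (e3 x).2) := hx'
    exact h2.ne h1.symm
  · rintro K hKc hK hKA ⟨u, huK, hu⟩ ⟨v, hvK, hv⟩
    obtain ⟨c, hc, hq⟩ := main_W (e3 '' K) (hKc.image e3.continuous)
      (hK.isPreconnected.image e3 e3.continuous.continuousOn)
      (by
        rintro _ ⟨p, hp, rfl⟩ hpA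
        exact Set.disjoint_left.mp hKA hp hpA)
      (mem_image_of_mem _ huK) hu (mem_image_of_mem _ hvK) hv
    have hb := bw_pos c
    set w : ℂ := c + Pstar c 0 with hw
    have hsq : ∀ x : EuclideanSpace ℝ (Fin 3),
          x 0 ∈ Icc (w.re - bw c / 2) (w.re - bw c / 2 + bw c) →
          x 1 ∈ Icc (w.im - bw c / 2) (w.im - bw c / 2 + bw c) → x 2 = phi c → x ∈ K := by
      rintro x ⟨hx1, hx2⟩ ⟨hy1, hy2⟩ hz
      have h3 := hq ⟨(x 0 - w.re) / bw c, (x 1 - w.im) / bw c⟩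
        (by
          change |(x 0 - w.re) / bw c| ≤ 1 / 2
          rw [abs_le, le_div_iff₀ hb, div_le_iff₀ hb]
          constructor <;> linarith)
        (by
          change |(x 1 - w.im) / bw c| ≤ 1 / 2
          rw [abs_le, le_div_iff₀ hb, div_le_iff₀ hb]
          constructor <;> linarith)
      rw [Pstar_eq hc] at h3
      obtain ⟨p, hp, hpe⟩ := h3
      have h4 : e3 x = e3 p := by
        rw [hpe]
        apply Prod.ext
        · change ((x 0 : ℝ) : ℂ) + ((x 1 : ℝ) : ℂ) * Complex.I = _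
          have h5 : c + (bw c • (⟨(x 0 - w.re) / bw c, (x 1 - w.im) / bw c⟩ : ℂ) + Pstar c 0) =
              w + bw c • (⟨(x 0 - w.re) / bw c, (x 1 - w.im) / bw c⟩ : ℂ) := by
            rw [hw]; ring
          change _ = c + (bw c • (⟨(x 0 - w.re) / bw c, (x 1 - w.im) / bw c⟩ : ℂ) + Pstar c 0)
          rw [h5]
          apply Complex.ext
          · simp
            field_simp
            ring
          · simp
            field_simp
            ring
        · exact hz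
      have h5 := e3.injective h4
      rw [h5]
      exact hp
    refine ⟨⟨_, _, _, _, hb, hsq⟩, ?_⟩
    apply not_dimLe_one_of_square K
      (fun p : ℝ × ℝ => (!₂[w.re - bw c / 2 + bw c * p.1, w.im - bw c / 2 + bw c * p.2, phi c] :
        EuclideanSpace ℝ (Fin 3)))
    · apply (PiLp.continuous_toLp 2 _).comp
      apply continuous_pi
      intro i
      fin_cases i
      · exact continuous_const.add (continuous_const.mul continuous_fst)
      · exact continuous_const.add (continuous_const.mul continuous_snd)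
      · exact continuous_const
    · rintro ⟨a, b⟩ ⟨a', b'⟩ h
      have h1 := congrArg (fun x : EuclideanSpace ℝ (Fin 3) => x 0) h
      have h2 := congrArg (fun x : EuclideanSpace ℝ (Fin 3) => x 1) h
      simp at h1 h2
      rcases h1 with h1 | h1
      · rcases h2 with h2 | h2
        · rw [h1, h2]
        · exact absurd h2 hb.ne'
      · exact absurd h1 hb.ne'
    · rintro ⟨a, b⟩ ⟨⟨ha1, ha2⟩, ⟨hb1, hb2⟩⟩
      simp only at ha1 ha2 hb1 hb2
      apply hsq
      · change w.re - bw c / 2 + bw c * a ∈ _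
        constructor <;> nlinarith
      · change w.im - bw c / 2 + bw c * b ∈ _
        constructor <;> nlinarith
      · rfl

end Pool.Agent.H72.INS
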